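import Pool.Agent.Helper87.Camp.Count

set_option autoImplicit false

/-!
MTR-1 Dec (MP_464c42_nt, weight 10, block ROUGH of project MT). Canonical decomposition of `m`-full numbers.

`Cop S x`: no prime of `S` divides `x`.

PROOF. For `v ≥ 0` put `e v = v / m` if `m ∣ v`, and `e v = v / m - 1` otherwise. For `n > 0` put
`ξ n = ∏_(p ∈ n.primeFactors, p ∉ S) p ^ e (v_p n)` and `τ n = n / (ξ n) ^ m` (natural division). `v_p` = `Nat.factorization`.
(1) `v_p (ξ n) = e (v_p n)` for primes `p ∉ S` (`e 0 = 0`), and `0` for `p ∈ S`; `m * e v ≤ v`, so `(ξ n)^m ∣ n`,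
`τ n * (ξ n)^m = n`. Let `n` be `NFull S m`, `p ∉ S` a prime, `v = v_p n`. If `m ∣ v` then `v_p (τ n) = 0`. If not, then `v > 0`,
so `p ∣ n`, `p^m ∣ n`, `v ≥ m`, and `v_p (τ n) = v - m (v / m - 1) = m + v % m ≥ m + 1`. So `τ n` is `NFull S (m+1)`.
(2) Let `y > 0`, `Cop S y`, `n' = τ n * y^m`. For `p ∉ S`: if `m ∣ v_p n` then `v_p n' = m v_p y`: it is `0` or `≥ m`, and
`e (v_p n') = v_p y`. Otherwise `v_p n' = m (1 + v_p y) + r` with `0 < r < m`, `≥ m`, `e (v_p n') = v_p y`. So `n'` is `NFull S m`,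
and `v_p (ξ n') = v_p y` for all primes (`p ∈ S`: both `0`), `ξ n' = y` (`Nat.eq_of_factorization_eq`),
`τ n' = n' / y^m = τ n`.
-/

namespace Pool.Agent.Helper7.MTR

open Pool.Agent.Helper87.Camp

/-- no prime of `S` divides `x` -/
def Cop (S : Finset ℕ) (x : ℕ) : Prop := ∀ p ∈ S, p.Prime → ¬ p ∣ x

/-- exponents of the canonical decomposition -/
private def ee (m v : ℕ) : ℕ := if m ∣ v then v / m else v / m - 1

private theorem ee_zero (m : ℕ) : ee m 0 = 0 := by simp [ee]

private theorem ee_le (m v : ℕ) : m * ee m v ≤ v := by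
  unfold ee
  have h1 := Nat.div_mul_le_self v m
  split_ifs with h
  · rw [mul_comm]
    exact h1
  · calc m * (v / m - 1) ≤ m * (v / m) := Nat.mul_le_mul_left m (Nat.sub_le _ _)
      _ ≤ v := by rw [mul_comm]; exact h1

private theorem ee_mul {m : ℕ} (hm : 1 ≤ m) (k : ℕ) : ee m (m * k) = k := by
  unfold ee
  rw [if_pos (dvd_mul_right m k), Nat.mul_div_cancel_left _ hm]

private theorem ee_add {m r : ℕ} (hm : 1 ≤ m) (hr : 0 < r) (hrm : r < m) (k : ℕ) :
    ee m (m + r + m * k) = k := by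
  unfold ee
  have h1 : m + r + m * k = r + m * (k + 1) := by ring
  have h2 : ¬ m ∣ r + m * (k + 1) := by
    intro h
    rw [Nat.dvd_add_left (dvd_mul_right m (k + 1))] at h
    exact absurd (Nat.le_of_dvd hr h) (by omega)
  rw [h1, if_neg h2, Nat.add_mul_div_left _ _ hm, Nat.div_eq_of_lt hrm]
  omega

/-- exponents of `ξ n` -/
private noncomputable def gg (S : Finset ℕ) (m n : ℕ) : ℕ →₀ ℕ :=
  Finsupp.mapRange (ee m) (ee_zero m) (n.factorization.filter (fun p => p ∉ S))

private theorem gg_notMem {S : Finset ℕ} {p : ℕ} (hp : p ∉ S) (m n : ℕ) :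
    gg S m n p = ee m (n.factorization p) := by
  rw [gg, Finsupp.mapRange_apply, Finsupp.filter_apply_pos (fun p => p ∉ S) _ hp]

private theorem gg_mem {S : Finset ℕ} {p : ℕ} (hp : p ∈ S) (m n : ℕ) : gg S m n p = 0 := by
  rw [gg, Finsupp.mapRange_apply, Finsupp.filter_apply_neg (fun p => p ∉ S) _ (fun h => h hp), ee_zero]

private theorem gg_le (S : Finset ℕ) (m n p : ℕ) : m * gg S m n p ≤ n.factorization p := by
  by_cases hp : p ∈ S
  · rw [gg_mem hp, mul_zero]
    exact Nat.zero_le _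
  · rw [gg_notMem hp]
    exact ee_le _ _

private theorem gg_prime (S : Finset ℕ) (m n : ℕ) : ∀ p ∈ (gg S m n).support, p.Prime := by
  intro p hp
  by_contra hcon
  rw [Finsupp.mem_support_iff] at hp
  apply hp
  by_cases hpS : p ∈ S
  · exact gg_mem hpS m n
  · rw [gg_notMem hpS, Nat.factorization_eq_zero_of_not_prime n hcon, ee_zero]

private noncomputable def xi (S : Finset ℕ) (m n : ℕ) : ℕ := (gg S m n).prod (fun p k => p ^ k)

private theorem xi_fac (S : Finset ℕ) (m n : ℕ) : (xi S m n).factorization = gg S m n :=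
  Nat.prod_pow_factorization_eq_self (gg_prime S m n)

private theorem xi_pos (S : Finset ℕ) (m n : ℕ) : 0 < xi S m n :=
  Finset.prod_pos fun p hp => pow_pos (gg_prime S m n p hp).pos _

private theorem xi_dvd (S : Finset ℕ) {m n : ℕ} (hn : 0 < n) : xi S m n ^ m ∣ n := by
  rw [← Nat.factorization_le_iff_dvd (pow_ne_zero _ (xi_pos S m n).ne') hn.ne']
  intro p
  rw [Nat.factorization_pow, xi_fac, Finsupp.smul_apply, smul_eq_mul]
  exact gg_le S m n p

private noncomputable def ta (S : Finset ℕ) (m n : ℕ) : ℕ := n / xi S m n ^ m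

private theorem ta_mul (S : Finset ℕ) {m n : ℕ} (hn : 0 < n) : ta S m n * xi S m n ^ m = n :=
  Nat.div_mul_cancel (xi_dvd S hn)

private theorem ta_pos (S : Finset ℕ) {m n : ℕ} (hn : 0 < n) : 0 < ta S m n := by
  rcases Nat.eq_zero_or_pos (ta S m n) with h | h
  · have h1 := ta_mul S (m := m) hn
    rw [h, zero_mul] at h1
    omega
  · exact h

private theorem ta_fac (S : Finset ℕ) {m n : ℕ} (hn : 0 < n) (p : ℕ) :
    (ta S m n).factorization p = n.factorization p - m * gg S m n p := by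
  unfold ta
  rw [Nat.factorization_div (xi_dvd S hn), Finsupp.tsub_apply, Nat.factorization_pow, xi_fac,
    Finsupp.smul_apply, smul_eq_mul]

/-- the exponents of `τ n` -/
private theorem ta_cases {S : Finset ℕ} {m n : ℕ} (hm : 1 ≤ m) (hn : 0 < n) (hf : NFull S m n)
    {p : ℕ} (hp : p.Prime) (hpS : p ∉ S) :
    (ta S m n).factorization p = 0 ∨
      ∃ r, 0 < r ∧ r < m ∧ (ta S m n).factorization p = m + r := by
  rw [ta_fac S hn, gg_notMem hpS]
  set v := n.factorization p with hv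
  by_cases h : m ∣ v
  · left
    obtain ⟨k, hk⟩ := h
    rw [hk, ee_mul hm, Nat.sub_self]
  · right
    have hv0 : v ≠ 0 := by
      intro h0
      rw [h0] at h
      exact h (dvd_zero m)
    have hpn : p ∣ n := Nat.dvd_of_factorization_pos (by rwa [← hv])
    have hmv : m ≤ v := (hp.pow_dvd_iff_le_factorization hn.ne').1 (hf p hp hpS hpn)
    have h1 : 1 ≤ v / m := (Nat.one_le_div_iff hm).2 hmv
    have h2 := Nat.div_add_mod v m
    have h3 : v % m ≠ 0 := fun h0 => h (Nat.dvd_of_mod_eq_zero h0)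
    refine ⟨v % m, Nat.pos_of_ne_zero h3, Nat.mod_lt _ hm, ?_⟩
    unfold ee
    rw [if_neg h]
    obtain ⟨j, hj⟩ : ∃ j, v / m = j + 1 := ⟨v / m - 1, by omega⟩
    rw [hj] at h2 ⊢
    rw [Nat.add_sub_cancel]
    have h4 : m * (j + 1) = m * j + m := by ring
    omega

theorem exists_canon (S : Finset ℕ) (m : ℕ) (hm : 1 ≤ m) : ∃ τ ξ : ℕ → ℕ,
    (∀ n : ℕ, 0 < n → NFull S m n → 0 < τ n ∧ 0 < ξ n ∧ τ n * ξ n ^ m = n ∧ Cop S (ξ n) ∧
      NFull S (m + 1) (τ n)) ∧
    (∀ n : ℕ, 0 < n → NFull S m n → ∀ y : ℕ, 0 < y → Cop S y →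
      NFull S m (τ n * y ^ m) ∧ τ (τ n * y ^ m) = τ n ∧ ξ (τ n * y ^ m) = y) := by
  refine ⟨ta S m, xi S m, ?_, ?_⟩
  · intro n hn hf
    refine ⟨ta_pos S hn, xi_pos S m n, ta_mul S hn, ?_, ?_⟩
    · intro p hpS hp hdvd
      have h1 := hp.factorization_pos_of_dvd (xi_pos S m n).ne' hdvd
      rw [xi_fac, gg_mem hpS] at h1
      exact lt_irrefl 0 h1
    · intro p hp hpS hdvd
      rw [hp.pow_dvd_iff_le_factorization (ta_pos S hn).ne']
      have h1 := hp.factorization_pos_of_dvd (ta_pos S hn).ne' hdvd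
      rcases ta_cases hm hn hf hp hpS with h2 | ⟨r, hr, -, h2⟩
      · omega
      · omega
  · intro n hn hf y hy hc
    have hn' : 0 < ta S m n * y ^ m := Nat.mul_pos (ta_pos S hn) (pow_pos hy m)
    have hxi : xi S m (ta S m n * y ^ m) = y := by
      apply Nat.eq_of_factorization_eq (xi_pos S m _).ne' hy.ne'
      intro p
      rw [xi_fac]
      by_cases hp : p.Prime
      · by_cases hpS : p ∈ S
        · rw [gg_mem hpS, Nat.factorization_eq_zero_of_not_dvd (hc p hpS hp)]
        · rw [gg_notMem hpS, Nat.factorization_mul (ta_pos S hn).ne' (pow_pos hy m).ne',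
            Nat.factorization_pow, Finsupp.add_apply, Finsupp.smul_apply, smul_eq_mul]
          rcases ta_cases hm hn hf hp hpS with h2 | ⟨r, hr, hrm, h2⟩
          · rw [h2, zero_add, ee_mul hm]
          · rw [h2, ee_add hm hr hrm]
      · rw [Nat.factorization_eq_zero_of_not_prime y hp, ← xi_fac,
          Nat.factorization_eq_zero_of_not_prime _ hp]
    refine ⟨?_, ?_, hxi⟩
    · intro p hp hpS hdvd
      rcases hp.dvd_mul.1 hdvd with h1 | h1
      · have h2 : p ^ (m + 1) ∣ ta S m n := by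
          rw [hp.pow_dvd_iff_le_factorization (ta_pos S hn).ne']
          have h1 := hp.factorization_pos_of_dvd (ta_pos S hn).ne' h1
          rcases ta_cases hm hn hf hp hpS with h2 | ⟨r, hr, -, h2⟩
          · omega
          · omega
        exact ((pow_dvd_pow p (Nat.le_succ m)).trans h2).mul_right _
      · exact (pow_dvd_pow_of_dvd (hp.dvd_of_dvd_pow h1) m).mul_left _
    · unfold ta
      rw [show n / xi S m n ^ m = ta S m n from rfl, hxi,
        Nat.mul_div_cancel _ (pow_pos hy m)]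

end Pool.Agent.Helper7.MTR
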