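import Pool.Agent.Helper87.Camp.Count

set_option autoImplicit false

/-!
MTR-4 Tail (MP_464c42_nt, weight 10, block ROUGH of project MT). The large `t` contribute little.

PROOF. `θ = 1/m - 1/(m+1) > 0`, `C` from `Helper87.Camp.sum_full S (m+1) _ (θ/4)`:
`∑_(w ≤ M, NFull S (m+1) w) w^(-1/(m+1)) ≤ C M^(θ/4)`. For `t ∈ T`: `t^(-1/m) = t^(-1/(m+1)) t^(-θ) ≤ t^(-1/(m+1)) M^(-θ/2)`
because `t > M^(1/2)`. So `∑_(t ∈ T) (M/t)^(1/m) = M^(1/m) ∑ t^(-1/m) ≤ M^(1/m) M^(-θ/2) C M^(θ/4) = C M^(-θ/4) M^(1/m)`, and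
`C M^(-θ/4) ≤ η` for `M ≥ M0`.
-/

namespace Pool.Agent.Helper7.MTR

open Pool.Agent.Helper87.Camp

theorem tail_small (η : ℝ) (hη : 0 < η) (S : Finset ℕ) (m : ℕ) (hm : 1 ≤ m) : ∃ M0 : ℕ, ∀ M : ℕ, M0 ≤ M →
    ∀ T : Finset ℕ, (∀ t ∈ T, 0 < t ∧ t ≤ M ∧ NFull S (m + 1) t ∧ (M : ℝ) ^ (1 / 2 : ℝ) < (t : ℝ)) →
      ∑ t ∈ T, ((M : ℝ) / (t : ℝ)) ^ (1 / (m : ℝ)) ≤ η * (M : ℝ) ^ (1 / (m : ℝ)) := by
  classical
  have hm0 : (0 : ℝ) < (m : ℝ) := by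
    have : 0 < m := hm
    exact_mod_cast this
  have hm1 : (0 : ℝ) < ((m + 1 : ℕ) : ℝ) := by
    have : 0 < m + 1 := Nat.succ_pos m
    exact_mod_cast this
  obtain ⟨θ, hθ⟩ : ∃ θ : ℝ, θ = 1 / (m : ℝ) - 1 / ((m + 1 : ℕ) : ℝ) := ⟨_, rfl⟩
  have hθ0 : 0 < θ := by
    rw [hθ, sub_pos]
    refine one_div_lt_one_div_of_lt hm0 ?_
    push_cast
    linarith
  obtain ⟨C, hC1, hC⟩ := sum_full S (m + 1) (Nat.succ_pos m) (θ / 4) (by positivity)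
  have hlim : Filter.Tendsto (fun M : ℕ => C * (M : ℝ) ^ (-(θ / 4))) Filter.atTop
      (nhds (C * 0)) :=
    ((tendsto_rpow_neg_atTop (y := θ / 4) (by positivity)).comp
      tendsto_natCast_atTop_atTop).const_mul C
  rw [mul_zero] at hlim
  obtain ⟨M0, hM0⟩ := Filter.eventually_atTop.1 (hlim.eventually_lt_const hη)
  refine ⟨max M0 1, fun M hM T hT => ?_⟩
  have hM1 : 1 ≤ M := le_trans (le_max_right _ _) hM
  have hMlt := hM0 M (le_trans (le_max_left _ _) hM)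
  have hMpos : (0 : ℝ) < (M : ℝ) := by
    have : 0 < M := hM1
    exact_mod_cast this
  have hterm : ∀ t ∈ T, ((M : ℝ) / (t : ℝ)) ^ (1 / (m : ℝ)) ≤
      (M : ℝ) ^ (1 / (m : ℝ)) * (M : ℝ) ^ (-(θ / 2)) *
        (t : ℝ) ^ (-(1 / ((m + 1 : ℕ) : ℝ))) := by
    intro t ht
    obtain ⟨ht0, htM, htf, htl⟩ := hT t ht
    have ht0' : (0 : ℝ) < (t : ℝ) := by exact_mod_cast ht0
    have h1 : (M : ℝ) ^ (θ / 2) ≤ (t : ℝ) ^ θ := by
      have h2 : (M : ℝ) ^ (θ / 2) = ((M : ℝ) ^ (1 / 2 : ℝ)) ^ θ := by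
        rw [← Real.rpow_mul hMpos.le]
        congr 1
        ring
      rw [h2]
      exact Real.rpow_le_rpow (by positivity) htl.le hθ0.le
    have h3 : (t : ℝ) ^ (-θ) ≤ (M : ℝ) ^ (-(θ / 2)) := by
      rw [Real.rpow_neg ht0'.le, Real.rpow_neg hMpos.le]
      exact inv_anti₀ (by positivity) h1
    have h4 : ((M : ℝ) / (t : ℝ)) ^ (1 / (m : ℝ)) =
        (M : ℝ) ^ (1 / (m : ℝ)) * (t : ℝ) ^ (-θ) * (t : ℝ) ^ (-(1 / ((m + 1 : ℕ) : ℝ))) := by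
      rw [Real.div_rpow hMpos.le ht0'.le, mul_assoc, ← Real.rpow_add ht0', div_eq_mul_inv,
        ← Real.rpow_neg ht0'.le]
      congr 2
      rw [hθ]
      ring
    rw [h4]
    exact mul_le_mul_of_nonneg_right (mul_le_mul_of_nonneg_left h3 (by positivity))
      (by positivity)
  calc ∑ t ∈ T, ((M : ℝ) / (t : ℝ)) ^ (1 / (m : ℝ))
      ≤ ∑ t ∈ T, (M : ℝ) ^ (1 / (m : ℝ)) * (M : ℝ) ^ (-(θ / 2)) *
        (t : ℝ) ^ (-(1 / ((m + 1 : ℕ) : ℝ))) := Finset.sum_le_sum hterm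
    _ = (M : ℝ) ^ (1 / (m : ℝ)) * (M : ℝ) ^ (-(θ / 2)) *
        ∑ t ∈ T, (t : ℝ) ^ (-(1 / ((m + 1 : ℕ) : ℝ))) := by rw [Finset.mul_sum]
    _ ≤ (M : ℝ) ^ (1 / (m : ℝ)) * (M : ℝ) ^ (-(θ / 2)) * (C * (M : ℝ) ^ (θ / 4)) := by
        refine mul_le_mul_of_nonneg_left ?_ (by positivity)
        refine le_trans ?_ (hC M hM1)
        refine Finset.sum_le_sum_of_subset_of_nonneg ?_ ?_
        · intro t ht
          obtain ⟨ht0, htM, htf, htl⟩ := hT t ht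
          rw [Finset.mem_filter, Finset.mem_Icc]
          exact ⟨⟨ht0, htM⟩, htf⟩
        · intro t _ _
          positivity
    _ = C * (M : ℝ) ^ (-(θ / 4)) * (M : ℝ) ^ (1 / (m : ℝ)) := by
        have h5 : (M : ℝ) ^ (-(θ / 4)) = (M : ℝ) ^ (-(θ / 2)) * (M : ℝ) ^ (θ / 4) := by
          rw [← Real.rpow_add hMpos]
          congr 1
          ring
        rw [h5]
        ring
    _ ≤ η * (M : ℝ) ^ (1 / (m : ℝ)) :=
        mul_le_mul_of_nonneg_right hMlt.le (by positivity)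

end Pool.Agent.Helper7.MTR
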