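import Pool.Agent.Helper58.BSD.EMert

set_option autoImplicit false

/-!
MTR-3 Window (MP_464c42_nt, weight 10, block ROUGH of project MT). Reciprocals of the primes of `(z, z^H]`.

PROOF. `Helper58.BSD.mertens_real`: `psum (1/p) ⌈x⌉ - log log x → M`, where `psum (1/p) ⌈x⌉ = ∑_(p < x) 1/p` (`p < ⌈x⌉₊ ↔ p < x`).
So there is `x0 > e` with `|psum ⌈x⌉ - log log x - M| ≤ 1` for `x ≥ x0`. For `z ≥ x0`, `H ≥ 1` (`z ≤ z^H`):
`∑_(z ≤ p < z^H) 1/p ≥ log log (z^H) - log log z - 2 = log H - 2` (`log (z^H) = H log z`). The primes with `z ≤ p < z^H` other than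
`z` itself are in `P`, and `1/z ≤ 1`: the sum over `P` is at least `log H - 3`. Take `H = ⌈exp (A + 3)⌉₊`.
-/

namespace Pool.Agent.Helper7.MTR

open Filter Topology

open Pool.Agent.Helper58.BSD in
theorem window_sum (A : ℝ) : ∃ (H : ℕ) (z0 : ℝ), 1 ≤ H ∧ 1 < z0 ∧ ∀ z : ℝ, z0 ≤ z → ∀ P : Finset ℕ,
    (∀ p : ℕ, p.Prime → z < p → (p : ℝ) ≤ z ^ H → p ∈ P) → A ≤ ∑ p ∈ P, 1 / (p : ℝ) := by
  classical
  obtain ⟨M, hM⟩ := mertens_real
  have h1 : ∀ᶠ x : ℝ in atTop, |psum (fun p => (p : ℝ)⁻¹) ⌈x⌉₊ - Real.log (Real.log x) - M| < 1 := by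
    have h2 := (Metric.tendsto_nhds.1 hM) 1 one_pos
    filter_upwards [h2] with x hx
    rwa [Real.dist_eq] at hx
  obtain ⟨x0, hx0⟩ := eventually_atTop.1 h1
  set H : ℕ := ⌈Real.exp (A + 3)⌉₊ with hH
  have hHpos : 1 ≤ H := Nat.one_le_ceil_iff.2 (Real.exp_pos _)
  have hHR : (1 : ℝ) ≤ H := by exact_mod_cast hHpos
  have hHlog : A + 3 ≤ Real.log H := by
    rw [Real.le_log_iff_exp_le (by linarith)]
    exact Nat.le_ceil _
  refine ⟨H, max x0 3, hHpos, lt_of_lt_of_le (by norm_num) (le_max_right _ _), ?_⟩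
  intro z hz P hP
  have hz3 : (3 : ℝ) ≤ z := (le_max_right _ _).trans hz
  have hzx : x0 ≤ z := (le_max_left _ _).trans hz
  have hzH : z ≤ z ^ H := by
    calc z = z ^ 1 := (pow_one z).symm
      _ ≤ z ^ H := pow_le_pow_right₀ (by linarith) hHpos
  have e1 := abs_lt.1 (hx0 z hzx)
  have e2 := abs_lt.1 (hx0 (z ^ H) (hzx.trans hzH))
  have hlz : 0 < Real.log z := Real.log_pos (by linarith)
  have e3 : Real.log (Real.log (z ^ H)) = Real.log H + Real.log (Real.log z) := by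
    rw [Real.log_pow, Real.log_mul (by positivity) hlz.ne']
  have e4 : A + 1 ≤ psum (fun p => (p : ℝ)⁻¹) ⌈z ^ H⌉₊ - psum (fun p => (p : ℝ)⁻¹) ⌈z⌉₊ := by
    rw [e3] at e2
    linarith [e1.1, e1.2, e2.1, e2.2]
  have hsub : (Finset.range ⌈z⌉₊).filter Nat.Prime ⊆ (Finset.range ⌈z ^ H⌉₊).filter Nat.Prime := by
    apply Finset.filter_subset_filter
    intro n hn
    rw [Finset.mem_range] at hn ⊢
    exact lt_of_lt_of_le hn (Nat.ceil_le_ceil hzH)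
  have e5 : psum (fun p => (p : ℝ)⁻¹) ⌈z ^ H⌉₊ - psum (fun p => (p : ℝ)⁻¹) ⌈z⌉₊ =
      ∑ p ∈ (Finset.range ⌈z ^ H⌉₊).filter Nat.Prime \ (Finset.range ⌈z⌉₊).filter Nat.Prime,
        (p : ℝ)⁻¹ := by
    unfold psum
    rw [← Finset.sum_sdiff hsub]
    ring
  have hcov : (Finset.range ⌈z ^ H⌉₊).filter Nat.Prime \ (Finset.range ⌈z⌉₊).filter Nat.Prime ⊆
      insert ⌈z⌉₊ P := by
    intro p hp
    rw [Finset.mem_sdiff, Finset.mem_filter, Finset.mem_filter, Finset.mem_range,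
      Finset.mem_range] at hp
    obtain ⟨⟨h6, h7⟩, h8⟩ := hp
    have h9 : ⌈z⌉₊ ≤ p := by
      by_contra hlt
      push Not at hlt
      exact h8 ⟨hlt, h7⟩
    rw [Finset.mem_insert]
    by_cases h10 : p = ⌈z⌉₊
    · exact Or.inl h10
    · right
      refine hP p h7 ?_ ?_
      · have h11 : ⌈z⌉₊ < p := lt_of_le_of_ne h9 (Ne.symm h10)
        exact lt_of_le_of_lt (Nat.le_ceil z) (by exact_mod_cast h11)
      · exact (Nat.lt_ceil.1 h6).le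
  have hnn : ∀ p : ℕ, 0 ≤ (p : ℝ)⁻¹ := fun p => by positivity
  have e6 : ∑ p ∈ (Finset.range ⌈z ^ H⌉₊).filter Nat.Prime \ (Finset.range ⌈z⌉₊).filter Nat.Prime,
        (p : ℝ)⁻¹ ≤ ∑ p ∈ insert ⌈z⌉₊ P, (p : ℝ)⁻¹ :=
    Finset.sum_le_sum_of_subset_of_nonneg hcov fun p _ _ => hnn p
  have e7 : ∑ p ∈ insert ⌈z⌉₊ P, (p : ℝ)⁻¹ ≤ 1 + ∑ p ∈ P, (p : ℝ)⁻¹ := by
    by_cases hm : ⌈z⌉₊ ∈ P
    · rw [Finset.insert_eq_of_mem hm]
      linarith
    · rw [Finset.sum_insert hm]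
      have h12 : (1 : ℝ) ≤ (⌈z⌉₊ : ℝ) := by
        have := Nat.le_ceil z
        linarith
      have h13 : ((⌈z⌉₊ : ℕ) : ℝ)⁻¹ ≤ 1 := inv_le_one_of_one_le₀ h12
      linarith
  simp only [one_div]
  linarith

end Pool.Agent.Helper7.MTR
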