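import Pool.Agent.Helper7.MTR.Turan
import Pool.Agent.Helper7.MTR.Window
import Pool.Agent.Helper7.MTR.Tail

set_option autoImplicit false

/-!
MTR-5 Rough (MP_464c42_nt, weight 10, block ROUGH of project MT). Few `m`-full numbers without a prime factor in the window
`(M^(5/m^2), M^(h/m^2)]`.

PROOF. `A = max 1 (16 / η)`, `H`, `z0` from `window_sum A`, `h = 5 H`, `m0 = 8 h + 1`. Fix `m ≥ m0`, `S`; `X0` from `turan_cop S`,
`M1` from `tail_small (η/4)`, `τ`, `ξ` from `exists_canon`. Let `M` be large: `M ≥ M1`, `z = M^(5/m^2) ≥ z0` and `z > max S`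
(`z → ∞` with `M`: exponent positive), `⌊M^(1/(2m))⌋ ≥ X0`, `M ≥ 2^(2m)`, `M ≥ 1`.
`z^H = M^(h/m^2)` (`Real.rpow_natCast`, `rpow_mul`). `P = {p ≤ M | p prime, z < p, p ≤ z^H}` (finset; `z^H ≤ M` as `h ≤ m^2`),
`L = ∑_(p ∈ P) 1/p ≥ A` by `window_sum`; primes of `P` are not in `S`.
`A⁺ = {1 ≤ n ≤ M | NFull S m n}`, `Bad = {n ∈ A⁺ | no p ∈ P divides n}`. `#Aset = 2 #A⁺` and the left side is `2 #Bad` (the map
`c ↦ |c|` has fibres `{n, -n}`; e.g. positive and negative elements separately, `Finset.card_bij`; only `≥` resp. `≤` are needed).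
For `t ∈ T = image τ A⁺`: `X_t = ⌊(M/t)^(1/m)⌋₊`; for a natural `y`: `t y^m ≤ M ↔ y ≤ X_t`. By `exists_canon` the map
`n ↦ ξ n` is a bijection from `{n ∈ A⁺ | τ n = t}` onto `{y ∈ [1, X_t] | Cop S y}` (inverse `y ↦ t y^m`; `t = τ n0`), and sends
`{n ∈ Bad | τ n = t}` into those `y` with no `p ∈ P` dividing `y` (`ξ n ∣ n`, `m ≥ 1`).
SMALL `t ≤ M^(1/2)`: `(M/t)^(1/m) ≥ M^(1/(2m))`, so `X_t ≥ ⌊M^(1/(2m))⌋ ≥ X0`, and for `p ∈ P`:
`p^4 ≤ M^(4h/m^2) ≤ M^(1/(2m))` (`8 h ≤ m`), so `p^4 ≤ X_t`. `turan_cop`: `#{n ∈ Bad | τ n = t} ≤ (4/L) #{n ∈ A⁺ | τ n = t}`.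
LARGE `t > M^(1/2)`: `#{n ∈ Bad | τ n = t} ≤ X_t ≤ (M/t)^(1/m)`, `t ≤ M` is `NFull S (m+1)`: sum at most
`(η/4) M^(1/m)` by `tail_small`. `#A⁺ ≥ ⌊M^(1/m)⌋ ≥ M^(1/m) / 2` (the powers `y^m`, `1 ≤ y ≤ M^(1/m)`, are `NFull S m`, injective).
Sum over `t ∈ T` (`Finset.card_eq_sum_card_fiberwise`): `#Bad ≤ (4/L) #A⁺ + (η/4) 2 #A⁺ ≤ (η/4 + η/2) #A⁺ ≤ η #A⁺`.
-/

namespace Pool.Agent.Helper7.MTR

open Pool.Agent.Helper87.Camp

private theorem le_root {M t y m : ℕ} (hm : 1 ≤ m) (ht : 0 < t) (h : t * y ^ m ≤ M) :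
    y ≤ ⌊((M : ℝ) / (t : ℝ)) ^ (1 / (m : ℝ))⌋₊ := by
  apply Nat.le_floor
  have htr : (0 : ℝ) < t := by exact_mod_cast ht
  have h6 : (y : ℝ) ^ m ≤ (M : ℝ) / t := by
    rw [le_div_iff₀ htr, mul_comm]
    exact_mod_cast h
  calc (y : ℝ) = ((y : ℝ) ^ m) ^ (1 / (m : ℝ)) := by
        rw [one_div]
        exact (Real.pow_rpow_inv_natCast (Nat.cast_nonneg _) (by omega)).symm
    _ ≤ ((M : ℝ) / t) ^ (1 / (m : ℝ)) := Real.rpow_le_rpow (by positivity) h6 (by positivity)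

private theorem of_le_root {M t y m : ℕ} (hm : 1 ≤ m) (ht : 0 < t)
    (h : y ≤ ⌊((M : ℝ) / (t : ℝ)) ^ (1 / (m : ℝ))⌋₊) : t * y ^ m ≤ M := by
  have htr : (0 : ℝ) < t := by exact_mod_cast ht
  have h0 : (0 : ℝ) ≤ (M : ℝ) / t := by positivity
  have h1 : (y : ℝ) ≤ ((M : ℝ) / t) ^ (1 / (m : ℝ)) :=
    (Nat.cast_le.2 h).trans (Nat.floor_le (Real.rpow_nonneg h0 _))
  have h2 : (y : ℝ) ^ m ≤ (((M : ℝ) / t) ^ (1 / (m : ℝ))) ^ m :=
    pow_le_pow_left₀ (by positivity) h1 m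
  rw [one_div, Real.rpow_inv_natCast_pow h0 (by omega), le_div_iff₀ htr, mul_comm] at h2
  exact_mod_cast h2

open Classical in
private theorem pos_bad (η : ℝ) (hη : 0 < η) : ∃ h m0 : ℕ, ∀ m : ℕ, m0 ≤ m → ∀ S : Finset ℕ,
    ∃ M0 : ℕ, ∀ M : ℕ, M0 ≤ M →
      ((((Finset.Icc 1 M).filter (fun n => NFull S m n)).filter (fun n => ∀ p : ℕ, p.Prime →
        (M : ℝ) ^ (5 / (m : ℝ) ^ 2) < (p : ℝ) →
        (p : ℝ) ≤ (M : ℝ) ^ ((h : ℝ) / (m : ℝ) ^ 2) → ¬ (p ∣ n))).card : ℝ) ≤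
        η * (((Finset.Icc 1 M).filter (fun n => NFull S m n)).card : ℝ) := by
  obtain ⟨H, z0, hH, hz0, hwin⟩ := window_sum (max 1 (16 / η))
  refine ⟨5 * H, 8 * (5 * H) + 1, fun m hm S => ?_⟩
  have hm1 : 1 ≤ m := by omega
  have hmr : (0 : ℝ) < m := by exact_mod_cast hm1
  obtain ⟨X0, hX0⟩ := turan_cop S
  obtain ⟨M1, hM1⟩ := tail_small (η / 4) (by positivity) S m hm1
  obtain ⟨τ, ξ, hcan1, hcan2⟩ := exists_canon S m hm1
  -- eventually large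
  have ev1 : ∀ᶠ M : ℕ in Filter.atTop, max z0 ((S.sup id : ℕ) + 1 : ℝ) ≤
      (M : ℝ) ^ (5 / (m : ℝ) ^ 2) :=
    ((tendsto_rpow_atTop (by positivity)).comp tendsto_natCast_atTop_atTop).eventually_ge_atTop _
  have ev2 : ∀ᶠ M : ℕ in Filter.atTop, (X0 : ℝ) ≤ (M : ℝ) ^ (1 / (2 * (m : ℝ))) :=
    ((tendsto_rpow_atTop (by positivity)).comp tendsto_natCast_atTop_atTop).eventually_ge_atTop _
  have ev3 : ∀ᶠ M : ℕ in Filter.atTop, max M1 1 ≤ M := Filter.eventually_ge_atTop _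
  obtain ⟨M0, hM0⟩ := Filter.eventually_atTop.1 (ev1.and (ev2.and ev3))
  refine ⟨M0, fun M hM => ?_⟩
  obtain ⟨hz, hX, hMM⟩ := hM0 M hM
  have hM1' : M1 ≤ M := (le_max_left _ _).trans hMM
  have hMone : 1 ≤ M := (le_max_right _ _).trans hMM
  have hMr : (1 : ℝ) ≤ M := by exact_mod_cast hMone
  have hMpos : (0 : ℝ) < M := by linarith
  set z : ℝ := (M : ℝ) ^ (5 / (m : ℝ) ^ 2) with hzdef
  have hzz0 : z0 ≤ z := (le_max_left _ _).trans hz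
  have hzS : ((S.sup id : ℕ) : ℝ) + 1 ≤ z := (le_max_right _ _).trans hz
  have hzH : z ^ H = (M : ℝ) ^ (((5 * H : ℕ) : ℝ) / (m : ℝ) ^ 2) := by
    rw [hzdef, ← Real.rpow_natCast, ← Real.rpow_mul hMpos.le]
    congr 1
    push_cast
    ring
  have hhm : ((5 * H : ℕ) : ℝ) * 8 ≤ m := by
    have : 5 * H * 8 ≤ m := by omega
    exact_mod_cast this
  have hh0 : (0 : ℝ) ≤ ((5 * H : ℕ) : ℝ) := Nat.cast_nonneg _
  have hm1r : (1 : ℝ) ≤ m := by exact_mod_cast hm1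
  have hexp1 : ((5 * H : ℕ) : ℝ) / (m : ℝ) ^ 2 ≤ 1 := by
    rw [div_le_one (by positivity)]
    nlinarith
  have hzM : (M : ℝ) ^ (((5 * H : ℕ) : ℝ) / (m : ℝ) ^ 2) ≤ M := by
    calc (M : ℝ) ^ (((5 * H : ℕ) : ℝ) / (m : ℝ) ^ 2) ≤ (M : ℝ) ^ (1 : ℝ) :=
          Real.rpow_le_rpow_of_exponent_le hMr hexp1
      _ = M := Real.rpow_one _
  set P : Finset ℕ := (Finset.Icc 1 M).filter (fun p => p.Prime ∧ z < (p : ℝ) ∧
    (p : ℝ) ≤ (M : ℝ) ^ (((5 * H : ℕ) : ℝ) / (m : ℝ) ^ 2)) with hPdef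
  have hPmem : ∀ p : ℕ, p ∈ P ↔ p.Prime ∧ z < (p : ℝ) ∧
      (p : ℝ) ≤ (M : ℝ) ^ (((5 * H : ℕ) : ℝ) / (m : ℝ) ^ 2) := by
    intro p
    rw [hPdef, Finset.mem_filter, Finset.mem_Icc]
    constructor
    · exact fun h => h.2
    · intro h
      refine ⟨⟨h.1.one_le, ?_⟩, h⟩
      exact_mod_cast h.2.2.trans hzM
  have hL := hwin z hzz0 P (fun p hp h1 h2 => (hPmem p).2 ⟨hp, h1, by rwa [← hzH]⟩)
  set L : ℝ := ∑ p ∈ P, 1 / (p : ℝ) with hLdef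
  have hL1 : 1 ≤ L := (le_max_left _ _).trans hL
  have hL2 : 16 / η ≤ L := (le_max_right _ _).trans hL
  have hL4 : 4 / L ≤ η / 4 := by
    rw [div_le_div_iff₀ (by linarith) (by norm_num)]
    rw [div_le_iff₀ hη] at hL2
    linarith
  set Ap : Finset ℕ := (Finset.Icc 1 M).filter (fun n => NFull S m n) with hAp
  have hApmem : ∀ n : ℕ, n ∈ Ap ↔ (1 ≤ n ∧ n ≤ M) ∧ NFull S m n := by
    intro n
    rw [hAp, Finset.mem_filter, Finset.mem_Icc]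
  set Bad : Finset ℕ := Ap.filter (fun n => ∀ p : ℕ, p.Prime → z < (p : ℝ) →
    (p : ℝ) ≤ (M : ℝ) ^ (((5 * H : ℕ) : ℝ) / (m : ℝ) ^ 2) → ¬ (p ∣ n)) with hBad
  have hBadmem : ∀ n : ℕ, n ∈ Bad ↔ n ∈ Ap ∧ ∀ p ∈ P, ¬ p ∣ n := by
    intro n
    rw [hBad, Finset.mem_filter]
    refine and_congr_right fun _ => ⟨fun h p hp => ?_, fun h p h1 h2 h3 => ?_⟩
    · obtain ⟨h1, h2, h3⟩ := (hPmem p).1 hp
      exact h p h1 h2 h3
    · exact h p ((hPmem p).2 ⟨h1, h2, h3⟩)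
  have hsub : Bad ⊆ Ap := Finset.filter_subset _ _
  set T : Finset ℕ := Ap.image τ with hT
  have hTmem : ∀ n ∈ Ap, τ n ∈ T := fun n hn => Finset.mem_image_of_mem τ hn
  have hfib1 : Bad.card = ∑ t ∈ T, (Bad.filter fun n => τ n = t).card :=
    Finset.card_eq_sum_card_fiberwise fun n hn => hTmem n (hsub hn)
  have hfib2 : Ap.card = ∑ t ∈ T, (Ap.filter fun n => τ n = t).card :=
    Finset.card_eq_sum_card_fiberwise fun n hn => hTmem n hn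
  -- facts on the elements of `T`
  have hTfact : ∀ t ∈ T, 0 < t ∧ t ≤ M ∧ NFull S (m + 1) t := by
    intro t ht
    obtain ⟨n, hn, rfl⟩ := Finset.mem_image.1 ht
    obtain ⟨⟨hn1, hn2⟩, hn3⟩ := (hApmem n).1 hn
    obtain ⟨h1, h2, h3, h4, h5⟩ := hcan1 n hn1 hn3
    refine ⟨h1, ?_, h5⟩
    have : 0 < ξ n ^ m := pow_pos h2 m
    calc τ n ≤ τ n * ξ n ^ m := Nat.le_mul_of_pos_right _ this
      _ = n := h3
      _ ≤ M := hn2
  -- the injection `ξ`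
  have hinj : ∀ t ∈ T, ∀ F : Finset ℕ, F ⊆ Ap.filter (fun n => τ n = t) → ∀ G : Finset ℕ,
      (∀ n ∈ F, ξ n ≤ ⌊((M : ℝ) / (t : ℝ)) ^ (1 / (m : ℝ))⌋₊ → 1 ≤ ξ n → Cop S (ξ n) →
        ξ n ∣ n → ξ n ∈ G) → F.card ≤ G.card := by
    intro t ht F hF G hG
    have hFm : ∀ n ∈ F, (0 < n ∧ n ≤ M ∧ NFull S m n) ∧ τ n = t := by
      intro n hn
      obtain ⟨h1, h2⟩ := Finset.mem_filter.1 (hF hn)
      obtain ⟨⟨h3, h4⟩, h5⟩ := (hApmem n).1 h1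
      exact ⟨⟨h3, h4, h5⟩, h2⟩
    apply Finset.card_le_card_of_injOn (f := ξ)
    · intro n hn
      have hn' : n ∈ F := hn
      obtain ⟨⟨h1, h2, h3⟩, h4⟩ := hFm n hn'
      obtain ⟨c1, c2, c3, c4, c5⟩ := hcan1 n h1 h3
      refine hG n hn' ?_ c2 c4 ?_
      · rw [← h4]
        apply le_root hm1 c1
        rw [c3]
        exact h2
      · rw [← c3]
        have : ξ n ∣ ξ n ^ m := dvd_pow_self _ (by omega)
        -- keep the argument of `ξ` fixed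
        have h7 : ∀ k : ℕ, k ∣ ξ n ^ m → k ∣ τ n * ξ n ^ m := fun k hk => hk.mul_left _
        rw [c3]
        have h8 := h7 (ξ n) this
        rwa [c3] at h8
    · intro a ha b hb hab
      obtain ⟨⟨h1, h2, h3⟩, h4⟩ := hFm a ha
      obtain ⟨⟨k1, k2, k3⟩, k4⟩ := hFm b hb
      have e1 := (hcan1 a h1 h3).2.2.1
      have e2 := (hcan1 b k1 k3).2.2.1
      rw [← e1, ← e2, h4, k4, hab]
  have hsmall : ∀ t ∈ T, (t : ℝ) ≤ (M : ℝ) ^ (1 / 2 : ℝ) →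
      ((Bad.filter fun n => τ n = t).card : ℝ) ≤
        4 / L * ((Ap.filter fun n => τ n = t).card : ℝ) := by
    intro t ht hts
    obtain ⟨ht0, htM, htF⟩ := hTfact t ht
    have htr : (0 : ℝ) < t := by exact_mod_cast ht0
    set X := ⌊((M : ℝ) / (t : ℝ)) ^ (1 / (m : ℝ))⌋₊ with hXdef
    have hroot : (M : ℝ) ^ (1 / (2 * (m : ℝ))) ≤ ((M : ℝ) / (t : ℝ)) ^ (1 / (m : ℝ)) := by
      have h1 : (M : ℝ) ^ (1 / 2 : ℝ) ≤ (M : ℝ) / t := by
        rw [le_div_iff₀ htr]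
        calc (M : ℝ) ^ (1 / 2 : ℝ) * t ≤ (M : ℝ) ^ (1 / 2 : ℝ) * (M : ℝ) ^ (1 / 2 : ℝ) :=
              mul_le_mul_of_nonneg_left hts (by positivity)
          _ = M := by
              rw [← Real.rpow_add hMpos]
              norm_num
      calc (M : ℝ) ^ (1 / (2 * (m : ℝ))) = ((M : ℝ) ^ (1 / 2 : ℝ)) ^ (1 / (m : ℝ)) := by
            rw [← Real.rpow_mul hMpos.le]
            congr 1
            field_simp
        _ ≤ _ := Real.rpow_le_rpow (by positivity) h1 (by positivity)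
    have hXX : X0 ≤ X := by
      apply Nat.le_floor
      exact hX.trans hroot
    have hP : ∀ p ∈ P, p.Prime ∧ p ∉ S ∧ p ^ 4 ≤ X := by
      intro p hp
      obtain ⟨h1, h2, h3⟩ := (hPmem p).1 hp
      refine ⟨h1, fun hpS => ?_, ?_⟩
      · have h4 : p ≤ S.sup id := Finset.le_sup (f := id) hpS
        have h5 : (p : ℝ) ≤ ((S.sup id : ℕ) : ℝ) := by exact_mod_cast h4
        linarith
      · apply Nat.le_floor
        push_cast
        calc (p : ℝ) ^ 4 ≤ ((M : ℝ) ^ (((5 * H : ℕ) : ℝ) / (m : ℝ) ^ 2)) ^ 4 :=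
              pow_le_pow_left₀ (by positivity) h3 4
          _ = (M : ℝ) ^ (((5 * H : ℕ) : ℝ) / (m : ℝ) ^ 2 * 4) := by
              rw [← Real.rpow_natCast, ← Real.rpow_mul hMpos.le]
              norm_num
          _ ≤ (M : ℝ) ^ (1 / (2 * (m : ℝ))) := by
              apply Real.rpow_le_rpow_of_exponent_le hMr
              rw [div_mul_eq_mul_div, div_le_div_iff₀ (by positivity) (by positivity)]
              nlinarith
          _ ≤ _ := hroot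
    have htur := hX0 X hXX P hP hL1
    have h1 : (Bad.filter fun n => τ n = t).card ≤
        ((Finset.Icc 1 X).filter (fun x => Cop S x ∧ ∀ p ∈ P, ¬ p ∣ x)).card := by
      refine hinj t ht _ (Finset.filter_subset_filter _ hsub) _ ?_
      intro n hn h1 h2 h3 h4
      rw [Finset.mem_filter, Finset.mem_Icc]
      refine ⟨⟨h2, h1⟩, h3, fun p hp hd => ?_⟩
      exact ((hBadmem n).1 (Finset.mem_filter.1 hn).1).2 p hp (hd.trans h4)
    have h2 : ((Finset.Icc 1 X).filter (fun x => Cop S x)).card ≤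
        (Ap.filter fun n => τ n = t).card := by
      obtain ⟨n0, hn0, hn0t⟩ := Finset.mem_image.1 ht
      obtain ⟨⟨hn1, hn2⟩, hn3⟩ := (hApmem n0).1 hn0
      apply Finset.card_le_card_of_injOn (f := fun y => t * y ^ m)
      · intro y hy
        have hy' := Finset.mem_filter.1 (Finset.mem_coe.1 hy)
        obtain ⟨hy1, hy2⟩ := Finset.mem_Icc.1 hy'.1
        obtain ⟨c1, c2, c3⟩ := hcan2 n0 hn1 hn3 y hy1 hy'.2
        rw [hn0t] at c1 c2 c3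
        rw [Finset.mem_coe, Finset.mem_filter, hApmem]
        refine ⟨⟨⟨?_, of_le_root hm1 ht0 hy2⟩, c1⟩, c2⟩
        exact Nat.mul_pos ht0 (pow_pos hy1 m)
      · intro a ha b hb hab
        have hab' : t * a ^ m = t * b ^ m := hab
        have h3 : a ^ m = b ^ m := Nat.eq_of_mul_eq_mul_left ht0 hab'
        exact Nat.pow_left_injective (by omega) h3
    calc ((Bad.filter fun n => τ n = t).card : ℝ) ≤ _ := Nat.cast_le.2 h1
      _ ≤ _ := htur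
      _ ≤ 4 / L * ((Ap.filter fun n => τ n = t).card : ℝ) :=
          mul_le_mul_of_nonneg_left (Nat.cast_le.2 h2) (by positivity)
  have hlarge : ∀ t ∈ T, ((Bad.filter fun n => τ n = t).card : ℝ) ≤
      ((M : ℝ) / (t : ℝ)) ^ (1 / (m : ℝ)) := by
    intro t ht
    have h1 : (Bad.filter fun n => τ n = t).card ≤
        (Finset.Icc 1 ⌊((M : ℝ) / (t : ℝ)) ^ (1 / (m : ℝ))⌋₊).card := by
      refine hinj t ht _ (Finset.filter_subset_filter _ hsub) _ ?_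
      intro n hn h1 h2 h3 h4
      exact Finset.mem_Icc.2 ⟨h2, h1⟩
    rw [Nat.card_Icc, Nat.add_sub_cancel] at h1
    exact (Nat.cast_le.2 h1).trans (Nat.floor_le (by positivity))
  have htail := hM1 M hM1' (T.filter fun t => (M : ℝ) ^ (1 / 2 : ℝ) < (t : ℝ)) (by
    intro t ht
    obtain ⟨h1, h2⟩ := Finset.mem_filter.1 ht
    obtain ⟨h3, h4, h5⟩ := hTfact t h1
    exact ⟨h3, h4, h5, h2⟩)
  have hcount : (M : ℝ) ^ (1 / (m : ℝ)) ≤ 2 * (Ap.card : ℝ) := by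
    have hx1 : (1 : ℝ) ≤ (M : ℝ) ^ (1 / (m : ℝ)) := Real.one_le_rpow hMr (by positivity)
    have h1 : (Finset.Icc 1 ⌊((M : ℝ) / ((1 : ℕ) : ℝ)) ^ (1 / (m : ℝ))⌋₊).card ≤ Ap.card := by
      apply Finset.card_le_card_of_injOn (f := fun y => y ^ m)
      · intro y hy
        obtain ⟨hy1, hy2⟩ := Finset.mem_Icc.1 (Finset.mem_coe.1 hy)
        rw [Finset.mem_coe, hApmem]
        refine ⟨⟨Nat.one_le_pow m y hy1, ?_⟩, ?_⟩
        · have := of_le_root hm1 one_pos hy2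
          rwa [one_mul] at this
        · intro p hp _ hd
          exact pow_dvd_pow_of_dvd (hp.dvd_of_dvd_pow hd) m
      · intro a _ b _ hab
        exact Nat.pow_left_injective (by omega) hab
    rw [Nat.card_Icc, Nat.add_sub_cancel, Nat.cast_one, div_one] at h1
    have h2 : (M : ℝ) ^ (1 / (m : ℝ)) < ⌊(M : ℝ) ^ (1 / (m : ℝ))⌋₊ + 1 := Nat.lt_floor_add_one _
    have h3 : 1 ≤ ⌊(M : ℝ) ^ (1 / (m : ℝ))⌋₊ := Nat.le_floor (by exact_mod_cast hx1)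
    have h3' : (1 : ℝ) ≤ (⌊(M : ℝ) ^ (1 / (m : ℝ))⌋₊ : ℝ) := by exact_mod_cast h3
    have h1' : (⌊(M : ℝ) ^ (1 / (m : ℝ))⌋₊ : ℝ) ≤ (Ap.card : ℝ) := Nat.cast_le.2 h1
    linarith
  -- the sum
  have hsum : (Bad.card : ℝ) ≤ 4 / L * (Ap.card : ℝ) + η / 4 * (M : ℝ) ^ (1 / (m : ℝ)) := by
    rw [hfib1, hfib2, Nat.cast_sum, Nat.cast_sum]
    rw [← Finset.sum_filter_add_sum_filter_not T (fun t : ℕ => (M : ℝ) ^ (1 / 2 : ℝ) < (t : ℝ))
      (fun t => (((Bad.filter fun n => τ n = t).card : ℕ) : ℝ))]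
    have h1 : ∑ t ∈ T.filter (fun t : ℕ => (M : ℝ) ^ (1 / 2 : ℝ) < (t : ℝ)),
        (((Bad.filter fun n => τ n = t).card : ℕ) : ℝ) ≤ η / 4 * (M : ℝ) ^ (1 / (m : ℝ)) := by
      refine le_trans (Finset.sum_le_sum fun t ht => ?_) htail
      exact hlarge t (Finset.mem_filter.1 ht).1
    have h2 : ∑ t ∈ T.filter (fun t : ℕ => ¬ (M : ℝ) ^ (1 / 2 : ℝ) < (t : ℝ)),
        (((Bad.filter fun n => τ n = t).card : ℕ) : ℝ) ≤
        4 / L * ∑ t ∈ T, (((Ap.filter fun n => τ n = t).card : ℕ) : ℝ) := by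
      rw [Finset.mul_sum]
      refine le_trans (Finset.sum_le_sum fun t ht => ?_)
        (Finset.sum_le_sum_of_subset_of_nonneg (Finset.filter_subset _ _) fun t _ _ => ?_)
      · obtain ⟨h3, h4⟩ := Finset.mem_filter.1 ht
        exact hsmall t h3 (not_lt.1 h4)
      · positivity
    linarith
  have hA0 : (0 : ℝ) ≤ (Ap.card : ℝ) := Nat.cast_nonneg _
  have h5 : 4 / L * (Ap.card : ℝ) ≤ η / 4 * (Ap.card : ℝ) := mul_le_mul_of_nonneg_right hL4 hA0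
  have h6 : η / 4 * (M : ℝ) ^ (1 / (m : ℝ)) ≤ η / 4 * (2 * (Ap.card : ℝ)) :=
    mul_le_mul_of_nonneg_left hcount (by positivity)
  have h7 : 0 ≤ η * (Ap.card : ℝ) := by positivity
  linarith

open Classical in
theorem rough_few (η : ℝ) (hη : 0 < η) : ∃ h m0 : ℕ, ∀ m : ℕ, m0 ≤ m → ∀ S : Finset ℕ,
    ∃ M0 : ℕ, ∀ M : ℕ, M0 ≤ M →
      (((Aset S m M).filter (fun c => ∀ p : ℕ, p.Prime → (M : ℝ) ^ (5 / (m : ℝ) ^ 2) < (p : ℝ) →
        (p : ℝ) ≤ (M : ℝ) ^ ((h : ℝ) / (m : ℝ) ^ 2) → ¬ ((p : ℤ) ∣ c))).card : ℝ) ≤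
        η * ((Aset S m M).card : ℝ) := by
  obtain ⟨h, m0, hmain⟩ := pos_bad η hη
  refine ⟨h, m0, fun m hm S => ?_⟩
  obtain ⟨M0, hM0⟩ := hmain m hm S
  refine ⟨M0, fun M hM => ?_⟩
  have h1 := hM0 M hM
  set Ap : Finset ℕ := (Finset.Icc 1 M).filter (fun n => NFull S m n) with hAp
  set Bad : Finset ℕ := Ap.filter (fun n => ∀ p : ℕ, p.Prime →
        (M : ℝ) ^ (5 / (m : ℝ) ^ 2) < (p : ℝ) →
        (p : ℝ) ≤ (M : ℝ) ^ ((h : ℝ) / (m : ℝ) ^ 2) → ¬ (p ∣ n)) with hBad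
  have h2 : ((Aset S m M).filter (fun c => ∀ p : ℕ, p.Prime → (M : ℝ) ^ (5 / (m : ℝ) ^ 2) < (p : ℝ) →
        (p : ℝ) ≤ (M : ℝ) ^ ((h : ℝ) / (m : ℝ) ^ 2) → ¬ ((p : ℤ) ∣ c))).card ≤ 2 * Bad.card := by
    refine Finset.card_le_mul_card_image_of_maps_to (f := Int.natAbs) ?_ 2 ?_
    · intro c hc
      obtain ⟨hc1, hc2⟩ := Finset.mem_filter.1 hc
      rw [mem_Aset] at hc1
      rw [hBad, Finset.mem_filter, hAp, Finset.mem_filter, Finset.mem_Icc]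
      refine ⟨⟨⟨by omega, hc1.2.1⟩, hc1.2.2⟩, fun p hp h3 h4 h5 => hc2 p hp h3 h4 ?_⟩
      exact Int.natCast_dvd.2 h5
    · intro n _
      calc _ ≤ ({(n : ℤ), -(n : ℤ)} : Finset ℤ).card := by
            apply Finset.card_le_card
            intro a ha
            rw [Finset.mem_filter] at ha
            rw [Finset.mem_insert, Finset.mem_singleton]
            omega
        _ ≤ 2 := Finset.card_le_two
  have h3 : 2 * Ap.card ≤ (Aset S m M).card := by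
    have hsub : Ap.image (fun n : ℕ => (n : ℤ)) ∪ Ap.image (fun n : ℕ => -(n : ℤ)) ⊆ Aset S m M := by
      intro c hc
      rw [Finset.mem_union, Finset.mem_image, Finset.mem_image] at hc
      rw [mem_Aset]
      rcases hc with ⟨n, hn, rfl⟩ | ⟨n, hn, rfl⟩
      · rw [hAp, Finset.mem_filter, Finset.mem_Icc] at hn
        refine ⟨by omega, by simpa using hn.1.2, by simpa using hn.2⟩
      · rw [hAp, Finset.mem_filter, Finset.mem_Icc] at hn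
        refine ⟨by omega, by simpa using hn.1.2, by simpa using hn.2⟩
    have hdisj : Disjoint (Ap.image (fun n : ℕ => (n : ℤ))) (Ap.image (fun n : ℕ => -(n : ℤ))) := by
      rw [Finset.disjoint_left]
      intro c hc hc'
      rw [Finset.mem_image] at hc hc'
      obtain ⟨n, hn, rfl⟩ := hc
      obtain ⟨k, hk, hkn⟩ := hc'
      rw [hAp, Finset.mem_filter, Finset.mem_Icc] at hn hk
      omega
    have h4 := Finset.card_le_card hsub
    rw [Finset.card_union_of_disjoint hdisj, Finset.card_image_of_injective _ Nat.cast_injective,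
      Finset.card_image_of_injective _ (fun a b hab => by simpa using hab)] at h4
    omega
  have h2' : (((Aset S m M).filter (fun c => ∀ p : ℕ, p.Prime →
      (M : ℝ) ^ (5 / (m : ℝ) ^ 2) < (p : ℝ) →
        (p : ℝ) ≤ (M : ℝ) ^ ((h : ℝ) / (m : ℝ) ^ 2) → ¬ ((p : ℤ) ∣ c))).card : ℝ) ≤
      2 * (Bad.card : ℝ) := by exact_mod_cast h2
  have h3' : 2 * (Ap.card : ℝ) ≤ ((Aset S m M).card : ℝ) := by exact_mod_cast h3
  have h4 : η * (2 * (Ap.card : ℝ)) ≤ η * ((Aset S m M).card : ℝ) :=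
    mul_le_mul_of_nonneg_left h3' hη.le
  linarith

end Pool.Agent.Helper7.MTR
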