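import Pool.Agent.Helper7.MTR.Dec

set_option autoImplicit false

/-!
MTR-2 Turan (MP_464c42_nt, weight 10, block ROUGH of project MT). Turan's inequality for the numbers coprime to `S`.

PROOF. `Q = ∏` of the primes in `S` (`Camp.rad S`), `ρ = φ(Q)/Q > 0`, `N(Y) = #{1 ≤ y ≤ Y | Cop S y}`
(`Cop S y ↔ Nat.Coprime Q y`). `|N(Y) - ρ Y| ≤ Q` for all natural `Y` (periodicity: `Nat.filter_coprime_Ico_eq_totient`,
`Y = q Q + r`, `N(Y) = q φ(Q) + (at most Q)`). For `d` with `Cop S d`: `#{x ≤ X | d ∣ x, Cop S x} = N(X / d)` (natural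
division), which differs from `ρ X / d` by at most `E = Q + 1`. Let `L = ∑_(p ∈ P) 1/p`, `ω(x) = #{p ∈ P | p ∣ x}`, sums over
`x ≤ X` with `Cop S x`:
`∑ 1 ≤ ρ X + E`, `∑ ω ≥ ρ X L - E |P|`, `∑ ω^2 = ∑_(p ≠ q) N(X/(pq)) + ∑_p N(X/p) ≤ ρ X L^2 + ρ X L + E |P|^2` (for primes
`p ≠ q`: `p ∣ x ∧ q ∣ x ↔ p q ∣ x`, and `Cop S (p q)`). So
`∑ (ω - L)^2 ≤ ρ X L + E (|P| + L)^2 ≤ ρ X L + 4 E |P|^2`, as `L ≤ |P|`. All `p ∈ P` have `p^4 ≤ X`, so with `R` = the largest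
natural number with `R^4 ≤ X`, `|P| ≤ R`, `|P|^4 ≤ X`, `|P|^2 ≤ √X`. Hence `L^2 #{ω = 0} ≤ ρ X L + 4 E √X`, and for `X ≥ X0`
(`4 E √X ≤ ρ X`, `2 E ≤ ρ X`), as `L ≥ 1`: `#{ω = 0} ≤ 2 ρ X / L ≤ 4 N(X) / L` because `N(X) ≥ ρ X - E ≥ ρ X / 2`.
-/

namespace Pool.Agent.Helper7.MTR

open Pool.Agent.Helper87.Camp

private theorem h45_cop_iff (S : Finset ℕ) (y : ℕ) : Cop S y ↔ Nat.Coprime (rad S) y := by
  unfold Cop rad
  rw [Nat.coprime_prod_left_iff]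
  constructor
  · intro h p hp
    rw [Finset.mem_filter] at hp
    exact (Nat.Prime.coprime_iff_not_dvd hp.2).2 (h p hp.1 hp.2)
  · intro h p hp hpp
    exact (Nat.Prime.coprime_iff_not_dvd hpp).1 (h p (Finset.mem_filter.2 ⟨hp, hpp⟩))

private theorem h45_per (Q : ℕ) (q : ℕ) :
    ((Finset.Ico 1 (1 + q * Q)).filter (fun x => Nat.Coprime Q x)).card = q * Nat.totient Q := by
  induction q with
  | zero => simp
  | succ q ih =>
    have h1 : Finset.Ico 1 (1 + (q + 1) * Q) =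
        Finset.Ico 1 (1 + q * Q) ∪ Finset.Ico (1 + q * Q) (1 + q * Q + Q) := by
      rw [Finset.Ico_union_Ico_eq_Ico (by omega) (by omega)]
      congr 1
      ring
    rw [h1, Finset.filter_union, Finset.card_union_of_disjoint
      (Finset.disjoint_filter_filter (Finset.Ico_disjoint_Ico_consecutive _ _ _)), ih,
      Nat.filter_coprime_Ico_eq_totient]
    ring

open Classical in
private theorem h45_count (S : Finset ℕ) (Y : ℕ) :
    |((((Finset.Icc 1 Y).filter (fun x => Cop S x)).card : ℕ) : ℝ) -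
      (Nat.totient (rad S) : ℝ) / (rad S : ℝ) * Y| ≤ (rad S : ℝ) := by
  have hQ : 0 < rad S := rad_pos S
  have hfil : (Finset.Icc 1 Y).filter (fun x => Cop S x) =
      (Finset.Ico 1 (1 + Y)).filter (fun x => Nat.Coprime (rad S) x) := by
    ext x
    simp only [Finset.mem_filter, Finset.mem_Icc, Finset.mem_Ico, h45_cop_iff]
    constructor
    · rintro ⟨⟨h1, h2⟩, h3⟩
      exact ⟨⟨h1, by omega⟩, h3⟩
    · rintro ⟨⟨h1, h2⟩, h3⟩
      exact ⟨⟨h1, by omega⟩, h3⟩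
  rw [hfil]
  obtain ⟨Q, hQe⟩ : ∃ Q, Q = rad S := ⟨_, rfl⟩
  rw [← hQe] at hQ ⊢
  obtain ⟨q, hq⟩ : ∃ q, q = Y / Q := ⟨_, rfl⟩
  obtain ⟨r, hr⟩ : ∃ r, r = Y % Q := ⟨_, rfl⟩
  have hrQ : r < Q := by rw [hr]; exact Nat.mod_lt _ hQ
  have hY : Y = q * Q + r := by
    rw [hq, hr, mul_comm]
    exact (Nat.div_add_mod Y Q).symm
  have h1 : Finset.Ico 1 (1 + Y) =
      Finset.Ico 1 (1 + q * Q) ∪ Finset.Ico (1 + q * Q) (1 + q * Q + r) := by
    rw [Finset.Ico_union_Ico_eq_Ico (by omega) (by omega), hY]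
    congr 1
    ring
  rw [h1, Finset.filter_union, Finset.card_union_of_disjoint
    (Finset.disjoint_filter_filter (Finset.Ico_disjoint_Ico_consecutive _ _ _)), h45_per]
  obtain ⟨s, hs⟩ : ∃ s, s = ((Finset.Ico (1 + q * Q) (1 + q * Q + r)).filter
      (fun x => Nat.Coprime Q x)).card := ⟨_, rfl⟩
  have hsr : s ≤ r := by
    rw [hs]
    refine (Finset.card_filter_le _ _).trans ?_
    rw [Nat.card_Ico]
    omega
  rw [← hs]
  have hQR : (0 : ℝ) < (Q : ℝ) := by exact_mod_cast hQ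
  have hφ : (Nat.totient Q : ℝ) / (Q : ℝ) ≤ 1 := by
    rw [div_le_one hQR]
    exact_mod_cast Nat.totient_le Q
  have hφ0 : 0 ≤ (Nat.totient Q : ℝ) / (Q : ℝ) := by positivity
  have hsR : (s : ℝ) ≤ (r : ℝ) := by exact_mod_cast hsr
  have hrR : (r : ℝ) ≤ (Q : ℝ) := by exact_mod_cast hrQ.le
  have hs0 : (0 : ℝ) ≤ (s : ℝ) := Nat.cast_nonneg s
  have hr0 : (0 : ℝ) ≤ (r : ℝ) := Nat.cast_nonneg r
  have heq : ((q * Nat.totient Q + s : ℕ) : ℝ) - (Nat.totient Q : ℝ) / (Q : ℝ) * (Y : ℝ) =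
      (s : ℝ) - (Nat.totient Q : ℝ) / (Q : ℝ) * (r : ℝ) := by
    rw [hY]
    push_cast
    field_simp
    ring
  rw [heq, abs_le]
  have h5 : (Nat.totient Q : ℝ) / (Q : ℝ) * (r : ℝ) ≤ 1 * (r : ℝ) :=
    mul_le_mul_of_nonneg_right hφ hr0
  have h6 : 0 ≤ (Nat.totient Q : ℝ) / (Q : ℝ) * (r : ℝ) := by positivity
  constructor
  · linarith
  · linarith

private theorem h45_cop_mul (S : Finset ℕ) {d : ℕ} (hd : Cop S d) (y : ℕ) :
    Cop S (d * y) ↔ Cop S y := by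
  rw [h45_cop_iff] at hd
  rw [h45_cop_iff, h45_cop_iff, Nat.coprime_mul_iff_right]
  exact ⟨fun h => h.2, fun h => ⟨hd, h⟩⟩

open Classical in
private theorem h45_mult (S : Finset ℕ) (X : ℕ) {d : ℕ} (hd0 : 0 < d) (hd : Cop S d) :
    (((Finset.Icc 1 X).filter (fun x => Cop S x)).filter (fun x => d ∣ x)).card =
      ((Finset.Icc 1 (X / d)).filter (fun x => Cop S x)).card := by
  symm
  refine Finset.card_bij (fun y _ => d * y) ?_ ?_ ?_
  · intro y hy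
    rw [Finset.mem_filter, Finset.mem_Icc] at hy
    rw [Finset.mem_filter, Finset.mem_filter, Finset.mem_Icc]
    refine ⟨⟨⟨Nat.mul_pos hd0 hy.1.1, ?_⟩, (h45_cop_mul S hd y).2 hy.2⟩, dvd_mul_right _ _⟩
    exact (Nat.mul_le_mul_left d hy.1.2).trans (Nat.mul_div_le X d)
  · intro a _ b _ hab
    exact Nat.eq_of_mul_eq_mul_left hd0 hab
  · intro x hx
    rw [Finset.mem_filter, Finset.mem_filter, Finset.mem_Icc] at hx
    obtain ⟨⟨⟨h1, h2⟩, h3⟩, y, rfl⟩ := hx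
    refine ⟨y, ?_, rfl⟩
    rw [Finset.mem_filter, Finset.mem_Icc]
    refine ⟨⟨?_, ?_⟩, (h45_cop_mul S hd y).1 h3⟩
    · exact Nat.pos_of_ne_zero fun h0 => by rw [h0, mul_zero] at h1; omega
    · rw [Nat.le_div_iff_mul_le hd0, mul_comm]
      exact h2

open Classical in
private theorem h45_mult_bd (S : Finset ℕ) (X : ℕ) {d : ℕ} (hd0 : 0 < d) (hd : Cop S d) :
    |(((((Finset.Icc 1 X).filter (fun x => Cop S x)).filter (fun x => d ∣ x)).card : ℕ) : ℝ) -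
      (Nat.totient (rad S) : ℝ) / (rad S : ℝ) * X * (1 / (d : ℝ))| ≤ (rad S : ℝ) + 1 := by
  rw [h45_mult S X hd0 hd]
  have h1 := h45_count S (X / d)
  have hQR : (0 : ℝ) < (rad S : ℝ) := by exact_mod_cast rad_pos S
  obtain ⟨ρ, hρ⟩ : ∃ ρ : ℝ, ρ = (Nat.totient (rad S) : ℝ) / (rad S : ℝ) := ⟨_, rfl⟩
  have hφ : ρ ≤ 1 := by
    rw [hρ, div_le_one hQR]
    exact_mod_cast Nat.totient_le (rad S)
  have hφ0 : 0 ≤ ρ := by rw [hρ]; positivity
  rw [← hρ] at h1 ⊢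
  have hdR : (0 : ℝ) < (d : ℝ) := by exact_mod_cast hd0
  have h2 : ((X / d : ℕ) : ℝ) ≤ (X : ℝ) / (d : ℝ) := Nat.cast_div_le
  have h3 : (X : ℝ) / (d : ℝ) ≤ ((X / d : ℕ) : ℝ) + 1 := by
    rw [div_le_iff₀ hdR]
    have h4 : X < (X / d + 1) * d := by
      have := Nat.lt_mul_div_succ X hd0
      rw [mul_comm]
      exact this
    exact_mod_cast h4.le
  have h4 : ρ * (X : ℝ) * (1 / (d : ℝ)) = ρ * ((X : ℝ) / (d : ℝ)) := by ring
  rw [h4]
  rw [abs_le] at h1 ⊢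
  have h5 : ρ * ((X / d : ℕ) : ℝ) ≤ ρ * ((X : ℝ) / (d : ℝ)) := mul_le_mul_of_nonneg_left h2 hφ0
  have h6 : ρ * ((X : ℝ) / (d : ℝ)) ≤ ρ * (((X / d : ℕ) : ℝ) + 1) :=
    mul_le_mul_of_nonneg_left h3 hφ0
  have h7 : ρ * (((X / d : ℕ) : ℝ) + 1) = ρ * ((X / d : ℕ) : ℝ) + ρ := by ring
  constructor
  · linarith [h1.1]
  · linarith [h1.2]

private theorem h45_card (P : Finset ℕ) (X : ℕ) (hP : ∀ p ∈ P, 0 < p ∧ p ^ 4 ≤ X)
    (hne : P.Nonempty) : P.card ^ 4 ≤ X := by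
  have h1 : ∃ p ∈ P, P.card ≤ p := by
    by_contra hcon
    push Not at hcon
    have h2 : P ⊆ Finset.Ico 1 P.card := by
      intro p hp
      rw [Finset.mem_Ico]
      exact ⟨(hP p hp).1, hcon p hp⟩
    have h3 := Finset.card_le_card h2
    rw [Nat.card_Ico] at h3
    have h4 := hne.card_pos
    omega
  obtain ⟨p, hp, hle⟩ := h1
  exact (Nat.pow_le_pow_left hle 4).trans (hP p hp).2

open Classical in
/-- the second moment -/
private theorem h45_moment (S : Finset ℕ) (X : ℕ) (P : Finset ℕ)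
    (hP : ∀ p ∈ P, p.Prime ∧ p ∉ S) (A : Finset ℕ)
    (hA : A = (Finset.Icc 1 X).filter (fun x => Cop S x)) (ρ L E : ℝ)
    (hρ : ρ = (Nat.totient (rad S) : ℝ) / (rad S : ℝ)) (hL : L = ∑ p ∈ P, 1 / (p : ℝ))
    (hE : E = (rad S : ℝ) + 1) (hL0 : 0 ≤ L) :
    ∑ x ∈ A, ((∑ p ∈ P, if p ∣ x then (1 : ℝ) else 0) - L) ^ 2 ≤
      ρ * X * L + E * ((P.card : ℝ) + L) ^ 2 := by
  have hQR : (0 : ℝ) < (rad S : ℝ) := by exact_mod_cast rad_pos S
  have hρ0 : 0 ≤ ρ := by rw [hρ]; positivity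
  have hE0 : 0 ≤ E := by rw [hE]; positivity
  have hXn : (0 : ℝ) ≤ (X : ℝ) := Nat.cast_nonneg X
  have hcopp : ∀ p ∈ P, Cop S p := by
    intro p hp q hq hqp hd
    have h1 : q = p := (Nat.prime_dvd_prime_iff_eq hqp (hP p hp).1).1 hd
    rw [h1] at hq
    exact (hP p hp).2 hq
  have hone : Cop S 1 := by
    intro p _ hp hd
    exact hp.one_lt.ne' (Nat.dvd_one.1 hd)
  -- the number of elements
  have hcardA : (A.card : ℝ) ≤ ρ * X + E := by
    have h1 := h45_mult_bd S X Nat.one_pos hone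
    rw [← hA, ← hρ, ← hE] at h1
    have h2 : A.filter (fun x => 1 ∣ x) = A := Finset.filter_true_of_mem fun x _ => one_dvd x
    rw [h2, Nat.cast_one, div_one, mul_one, abs_le] at h1
    linarith [h1.2]
  have hind : ∀ d : ℕ, (∑ x ∈ A, if d ∣ x then (1 : ℝ) else 0) =
      ((A.filter (fun x => d ∣ x)).card : ℝ) := by
    intro d
    rw [← Finset.sum_filter, Finset.sum_const, nsmul_eq_mul, mul_one]
  -- first moment
  have hfirst : ρ * X * L - E * P.card ≤ ∑ x ∈ A, ∑ p ∈ P, if p ∣ x then (1 : ℝ) else 0 := by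
    rw [Finset.sum_comm]
    have h1 : ρ * X * L - E * P.card = ∑ p ∈ P, (ρ * X * (1 / (p : ℝ)) - E) := by
      rw [Finset.sum_sub_distrib, ← Finset.mul_sum, ← hL, Finset.sum_const, nsmul_eq_mul]
      ring
    rw [h1]
    refine Finset.sum_le_sum fun p hp => ?_
    rw [hind p]
    have h2 := h45_mult_bd S X (hP p hp).1.pos (hcopp p hp)
    rw [← hA, ← hρ, ← hE, abs_le] at h2
    linarith [h2.1]
  -- second moment
  have hsecond : ∑ x ∈ A, (∑ p ∈ P, if p ∣ x then (1 : ℝ) else 0) ^ 2 ≤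
      ρ * X * L ^ 2 + ρ * X * L + E * (P.card : ℝ) ^ 2 := by
    have h1 : ∀ x ∈ A, (∑ p ∈ P, if p ∣ x then (1 : ℝ) else 0) ^ 2 =
        ∑ p ∈ P, ∑ q ∈ P, (if p ∣ x then (1 : ℝ) else 0) * (if q ∣ x then (1 : ℝ) else 0) := by
      intro x _
      rw [sq, Finset.sum_mul_sum]
    rw [Finset.sum_congr rfl h1, Finset.sum_comm]
    have h2 : ρ * X * L ^ 2 + ρ * X * L + E * (P.card : ℝ) ^ 2 =
        ∑ p ∈ P, ∑ q ∈ P, (ρ * X * ((1 / (p : ℝ)) * (1 / (q : ℝ))) +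
          (if p = q then ρ * X * (1 / (p : ℝ)) else 0) + E) := by
      have h3 : ∀ p ∈ P, ∑ q ∈ P, (ρ * X * ((1 / (p : ℝ)) * (1 / (q : ℝ))) +
          (if p = q then ρ * X * (1 / (p : ℝ)) else 0) + E) =
          ρ * X * (1 / (p : ℝ)) * L + ρ * X * (1 / (p : ℝ)) + E * P.card := by
        intro p hp
        rw [Finset.sum_add_distrib, Finset.sum_add_distrib, Finset.sum_ite_eq, if_pos hp,
          Finset.sum_const, nsmul_eq_mul]
        have h4 : ∑ q ∈ P, ρ * X * ((1 / (p : ℝ)) * (1 / (q : ℝ))) =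
            ρ * X * (1 / (p : ℝ)) * L := by
          rw [hL, Finset.mul_sum]
          refine Finset.sum_congr rfl fun q _ => ?_
          ring
        rw [h4]
        ring
      rw [Finset.sum_congr rfl h3, Finset.sum_add_distrib, Finset.sum_add_distrib,
        ← Finset.sum_mul, ← Finset.mul_sum, ← hL, Finset.sum_const, nsmul_eq_mul]
      ring
    rw [h2]
    refine Finset.sum_le_sum fun p hp => ?_
    rw [Finset.sum_comm]
    refine Finset.sum_le_sum fun q hq => ?_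
    by_cases hpq : p = q
    · subst hpq
      rw [if_pos rfl]
      have h5 : ∀ x ∈ A, (if p ∣ x then (1 : ℝ) else 0) * (if p ∣ x then (1 : ℝ) else 0) =
          if p ∣ x then (1 : ℝ) else 0 := by
        intro x _
        split_ifs <;> ring
      rw [Finset.sum_congr rfl h5, hind p]
      have h6 := h45_mult_bd S X (hP p hp).1.pos (hcopp p hp)
      rw [← hA, ← hρ, ← hE, abs_le] at h6
      have h7 : 0 ≤ ρ * X * ((1 / (p : ℝ)) * (1 / (p : ℝ))) := by positivity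
      linarith [h6.2]
    · rw [if_neg hpq, add_zero]
      have hcop : Nat.Coprime p q := (Nat.coprime_primes (hP p hp).1 (hP q hq).1).2 hpq
      have h5 : ∀ x ∈ A, (if p ∣ x then (1 : ℝ) else 0) * (if q ∣ x then (1 : ℝ) else 0) =
          if p * q ∣ x then (1 : ℝ) else 0 := by
        intro x _
        by_cases hx : p * q ∣ x
        · rw [if_pos hx, if_pos (dvd_of_mul_right_dvd hx), if_pos (dvd_of_mul_left_dvd hx), mul_one]
        · rw [if_neg hx]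
          by_cases hx1 : p ∣ x
          · by_cases hx2 : q ∣ x
            · exact absurd (hcop.mul_dvd_of_dvd_of_dvd hx1 hx2) hx
            · rw [if_neg hx2, mul_zero]
          · rw [if_neg hx1, zero_mul]
      rw [Finset.sum_congr rfl h5, hind (p * q)]
      have h6 := h45_mult_bd S X (Nat.mul_pos (hP p hp).1.pos (hP q hq).1.pos)
        ((h45_cop_mul S (hcopp p hp) q).2 (hcopp q hq))
      rw [← hA, ← hρ, ← hE, abs_le] at h6
      have h7 : (1 : ℝ) / ((p * q : ℕ) : ℝ) = (1 / (p : ℝ)) * (1 / (q : ℝ)) := by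
        push_cast
        rw [one_div_mul_one_div]
      rw [h7] at h6
      linarith [h6.2]
  have hexp : ∑ x ∈ A, ((∑ p ∈ P, if p ∣ x then (1 : ℝ) else 0) - L) ^ 2 =
      (∑ x ∈ A, (∑ p ∈ P, if p ∣ x then (1 : ℝ) else 0) ^ 2) -
      2 * L * (∑ x ∈ A, ∑ p ∈ P, if p ∣ x then (1 : ℝ) else 0) + L ^ 2 * A.card := by
    have h1 : ∀ x ∈ A, ((∑ p ∈ P, if p ∣ x then (1 : ℝ) else 0) - L) ^ 2 =
        (∑ p ∈ P, if p ∣ x then (1 : ℝ) else 0) ^ 2 -
        2 * L * (∑ p ∈ P, if p ∣ x then (1 : ℝ) else 0) + L ^ 2 := by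
      intro x _
      ring
    rw [Finset.sum_congr rfl h1, Finset.sum_add_distrib, Finset.sum_sub_distrib,
      ← Finset.mul_sum, Finset.sum_const, nsmul_eq_mul]
    ring
  rw [hexp]
  have h8 := mul_le_mul_of_nonneg_left hfirst (by positivity : (0 : ℝ) ≤ 2 * L)
  have h9 := mul_le_mul_of_nonneg_left hcardA (by positivity : (0 : ℝ) ≤ L ^ 2)
  nlinarith [h8, h9, hsecond]

open Classical in
theorem turan_cop (S : Finset ℕ) : ∃ X0 : ℕ, ∀ X : ℕ, X0 ≤ X → ∀ P : Finset ℕ,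
    (∀ p ∈ P, p.Prime ∧ p ∉ S ∧ p ^ 4 ≤ X) → 1 ≤ ∑ p ∈ P, 1 / (p : ℝ) →
    (((Finset.Icc 1 X).filter (fun x => Cop S x ∧ ∀ p ∈ P, ¬ p ∣ x)).card : ℝ) ≤
      4 / (∑ p ∈ P, 1 / (p : ℝ)) * (((Finset.Icc 1 X).filter (fun x => Cop S x)).card : ℝ) := by
  have hQR : (0 : ℝ) < (rad S : ℝ) := by exact_mod_cast rad_pos S
  obtain ⟨ρ, hρ⟩ : ∃ ρ : ℝ, ρ = (Nat.totient (rad S) : ℝ) / (rad S : ℝ) := ⟨_, rfl⟩
  obtain ⟨E, hE⟩ : ∃ E : ℝ, E = (rad S : ℝ) + 1 := ⟨_, rfl⟩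
  have hρ0 : 0 < ρ := by
    rw [hρ]
    have : 0 < Nat.totient (rad S) := Nat.totient_pos.2 (rad_pos S)
    have h1 : (0 : ℝ) < (Nat.totient (rad S) : ℝ) := by exact_mod_cast this
    positivity
  have hE0 : 0 < E := by rw [hE]; positivity
  obtain ⟨X0, hX0⟩ := exists_nat_ge ((4 * E / ρ) ^ 2 + 1)
  refine ⟨X0, fun X hX P hP hL1 => ?_⟩
  obtain ⟨L, hL⟩ : ∃ L : ℝ, L = ∑ p ∈ P, 1 / (p : ℝ) := ⟨_, rfl⟩
  rw [← hL] at hL1 ⊢
  have hne : P.Nonempty := by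
    rw [Finset.nonempty_iff_ne_empty]
    rintro rfl
    rw [Finset.sum_empty] at hL
    linarith
  have hX1 : (4 * E / ρ) ^ 2 + 1 ≤ (X : ℝ) := by
    refine hX0.trans ?_
    exact_mod_cast hX
  have hXpos : (0 : ℝ) < (X : ℝ) := lt_of_lt_of_le (by positivity) hX1
  have hsqrt : 4 * E / ρ ≤ Real.sqrt X := by
    refine Real.le_sqrt_of_sq_le ?_
    linarith
  have hsq1 : 1 ≤ Real.sqrt X := by
    refine Real.le_sqrt_of_sq_le ?_
    have : 0 ≤ (4 * E / ρ) ^ 2 := by positivity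
    linarith
  have hmulself : Real.sqrt X * Real.sqrt X = X := Real.mul_self_sqrt hXpos.le
  have h4E : 4 * E * Real.sqrt X ≤ ρ * X := by
    rw [div_le_iff₀ hρ0] at hsqrt
    have h1 := mul_le_mul_of_nonneg_right hsqrt (Real.sqrt_nonneg (X : ℝ))
    calc 4 * E * Real.sqrt X ≤ Real.sqrt X * ρ * Real.sqrt X := h1
      _ = ρ * (Real.sqrt X * Real.sqrt X) := by ring
      _ = ρ * X := by rw [hmulself]
  have h2E : 2 * E ≤ ρ * X := by
    have h1 : 2 * E * 1 ≤ 2 * E * Real.sqrt X := mul_le_mul_of_nonneg_left hsq1 (by positivity)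
    have h2 : 0 ≤ 2 * E * Real.sqrt X := by positivity
    linarith
  have hL0 : 0 ≤ L := le_trans zero_le_one hL1
  have hLP : L ≤ (P.card : ℝ) := by
    rw [hL]
    have h1 : (P.card : ℝ) = ∑ _p ∈ P, (1 : ℝ) := by
      rw [Finset.sum_const, nsmul_eq_mul, mul_one]
    rw [h1]
    refine Finset.sum_le_sum fun p hp => ?_
    have h2 : (1 : ℝ) ≤ (p : ℝ) := by exact_mod_cast (hP p hp).1.one_lt.le
    rw [div_le_one (by linarith)]
    exact h2
  have hPX : (P.card : ℝ) ^ 2 ≤ Real.sqrt X := by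
    refine Real.le_sqrt_of_sq_le ?_
    have h1 := h45_card P X (fun p hp => ⟨(hP p hp).1.pos, (hP p hp).2.2⟩) hne
    have h2 : ((P.card : ℝ) ^ 2) ^ 2 = (((P.card) ^ 4 : ℕ) : ℝ) := by
      push_cast
      ring
    rw [h2]
    exact_mod_cast h1
  have hmom := h45_moment S X P (fun p hp => ⟨(hP p hp).1, (hP p hp).2.1⟩) _ rfl ρ L E hρ hL hE hL0
  -- the set of numbers without a prime factor in `P`
  obtain ⟨Z, hZ⟩ : ∃ Z, Z = (Finset.Icc 1 X).filter (fun x => Cop S x ∧ ∀ p ∈ P, ¬ p ∣ x) :=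
    ⟨_, rfl⟩
  rw [← hZ]
  have hZsum : L ^ 2 * (Z.card : ℝ) ≤
      ∑ x ∈ (Finset.Icc 1 X).filter (fun x => Cop S x),
        ((∑ p ∈ P, if p ∣ x then (1 : ℝ) else 0) - L) ^ 2 := by
    have h1 : L ^ 2 * (Z.card : ℝ) =
        ∑ x ∈ Z, ((∑ p ∈ P, if p ∣ x then (1 : ℝ) else 0) - L) ^ 2 := by
      have h2 : ∀ x ∈ Z, ((∑ p ∈ P, if p ∣ x then (1 : ℝ) else 0) - L) ^ 2 = L ^ 2 := by
        intro x hx
        rw [hZ, Finset.mem_filter] at hx
        have h3 : (∑ p ∈ P, if p ∣ x then (1 : ℝ) else 0) = 0 :=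
          Finset.sum_eq_zero fun p hp => if_neg (hx.2.2 p hp)
        rw [h3]
        ring
      rw [Finset.sum_congr rfl h2, Finset.sum_const, nsmul_eq_mul]
      ring
    rw [h1]
    refine Finset.sum_le_sum_of_subset_of_nonneg ?_ fun x _ _ => sq_nonneg _
    intro x hx
    rw [hZ, Finset.mem_filter] at hx
    exact Finset.mem_filter.2 ⟨hx.1, hx.2.1⟩
  have hfin : L ^ 2 * (Z.card : ℝ) ≤ 2 * ρ * X * L := by
    have h1 : E * ((P.card : ℝ) + L) ^ 2 ≤ 4 * E * (P.card : ℝ) ^ 2 := by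
      have h2 : ((P.card : ℝ) + L) ^ 2 ≤ (2 * (P.card : ℝ)) ^ 2 :=
        pow_le_pow_left₀ (by positivity) (by linarith) 2
      have h3 := mul_le_mul_of_nonneg_left h2 hE0.le
      linarith
    have h4 : 4 * E * (P.card : ℝ) ^ 2 ≤ 4 * E * Real.sqrt X :=
      mul_le_mul_of_nonneg_left hPX (by positivity)
    have h5 : ρ * X * 1 ≤ ρ * X * L := mul_le_mul_of_nonneg_left hL1 (by positivity)
    linarith
  have hLpos : 0 < L := lt_of_lt_of_le one_pos hL1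
  have hZ2 : L * (Z.card : ℝ) ≤ 2 * ρ * X := by
    have h1 : L * (L * (Z.card : ℝ)) ≤ L * (2 * ρ * X) := by
      calc L * (L * (Z.card : ℝ)) = L ^ 2 * (Z.card : ℝ) := by ring
        _ ≤ 2 * ρ * X * L := hfin
        _ = L * (2 * ρ * X) := by ring
    exact le_of_mul_le_mul_left h1 hLpos
  have hN := h45_count S X
  rw [← hρ, abs_le] at hN
  have hN1 : ρ * X ≤ 2 * (((Finset.Icc 1 X).filter (fun x => Cop S x)).card : ℝ) := by
    have h1 : (rad S : ℝ) ≤ E := by rw [hE]; linarith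
    linarith [hN.1]
  rw [div_mul_eq_mul_div, le_div_iff₀ hLpos, mul_comm (Z.card : ℝ) L]
  linarith

end Pool.Agent.Helper7.MTR
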